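import Pool.Agent.H606.AV.Stm5

set_option autoImplicit false

/-!
# Project LF (helper606), task JENF (by helper189)
-/

open Complex Filter Topology Metric Set MeasureTheory

namespace Pool.Agent.H189.AV

open Pool.Agent.H606.AV

/-- absorbing the constants (helper227) -/
theorem absorb {Mt Mx l lx v a g : ℝ} (hMt : 0 < Mt) (hM : Mx ≤ 2 * Mt * Real.exp |v|)
    (hl : |lx - l| ≤ 1) (ha : 0 ≤ a) (hg : 1 + a ≤ l * g) :
    Mx * Real.exp (lx * a) ≤ Mt * Real.exp (l * (a + g) + |v|) := by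
  rw [abs_le] at hl
  have h1 : Real.exp (lx * a) ≤ Real.exp ((l + 1) * a) := by
    apply Real.exp_le_exp.mpr
    apply mul_le_mul_of_nonneg_right _ ha
    linarith [hl.2]
  have h2 : (2 : ℝ) ≤ Real.exp 1 := by
    have := Real.add_one_le_exp (1 : ℝ)
    linarith
  calc Mx * Real.exp (lx * a) ≤ (2 * Mt * Real.exp |v|) * Real.exp (lx * a) :=
        mul_le_mul_of_nonneg_right hM (Real.exp_pos _).le
    _ ≤ (2 * Mt * Real.exp |v|) * Real.exp ((l + 1) * a) :=
        mul_le_mul_of_nonneg_left h1 (by positivity)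
    _ = Mt * (2 * (Real.exp |v| * Real.exp ((l + 1) * a))) := by ring
    _ ≤ Mt * (Real.exp 1 * (Real.exp |v| * Real.exp ((l + 1) * a))) := by gcongr
    _ = Mt * Real.exp (1 + (|v| + (l + 1) * a)) := by
        rw [← Real.exp_add, ← Real.exp_add]
    _ ≤ Mt * Real.exp (l * (a + g) + |v|) := by
        apply mul_le_mul_of_nonneg_left _ hMt.le
        apply Real.exp_le_exp.mpr
        nlinarith

theorem norm_le_four {v : ℂ} (h1 : |v.re| ≤ 3) (h2 : |v.im| ≤ 5 / 2) : ‖v‖ ≤ 4 := by
  have h3 : ‖v‖ ^ 2 = v.re ^ 2 + v.im ^ 2 := by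
    rw [Complex.sq_norm, Complex.normSq_apply]
    ring
  have h4 : v.re ^ 2 ≤ 9 := by
    rw [← sq_abs]
    nlinarith [abs_nonneg v.re]
  have h5 : v.im ^ 2 ≤ 25 / 4 := by
    rw [← sq_abs]
    nlinarith [abs_nonneg v.im]
  by_contra hc
  nlinarith [norm_nonneg v]

/-- the upper bound of `X` in the strip, from the bound on the line at distance `h` -/
theorem upper (X : ℂ → ℂ) (M lt : ℝ → ℝ) (E : Env X M lt) (h e : ℝ) (hh0 : 0 < h)
    (hh1 : h < 1 / 2) (he0 : 0 < e) (he1 : e ≤ 1) :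
    ∃ T0 : ℝ, ∀ t : ℝ, T0 ≤ t → 0 < M t ∧ 0 ≤ lt t ∧
      ((∀ x : ℝ, |x - t| ≤ Real.log t →
        ‖X (x - I * h)‖ ≤ M t * Real.exp (lt t * (h + e / 8) + |x - t|)) →
      ∀ v : ℂ, |v.re| ≤ 3 → -(5 / 2) ≤ v.im → v.im ≤ h →
        ‖X (t + v)‖ ≤ M t * Real.exp (lt t * (max (-v.im) h + e / 2))) := by
  obtain ⟨T2, hmtd⟩ := E.mtd 1 one_pos
  obtain ⟨T3, hloc⟩ := E.loc 1 (e / 8) one_pos (by positivity)
  obtain ⟨T4, hMpos⟩ := E.Mpos
  obtain ⟨C, T5, hlt⟩ := E.ltlog
  obtain ⟨T6, hmax1⟩ := E.max (-h) h 0 (h + e / 4) (e / 4) (by linarith) (by linarith)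
    (by linarith) (by positivity) (by norm_num) (by positivity)
  obtain ⟨T7, hmax2⟩ := E.max h (1 / 2 + e / 8) 1 (e / 4) (e / 4) (by linarith) (by linarith)
    (by linarith) (by positivity) (by norm_num) (by positivity)
  have hlogt : ∀ᶠ t : ℝ in atTop, C + 32 / e ≤ Real.log t :=
    Real.tendsto_log_atTop.eventually_ge_atTop _
  obtain ⟨T0, hT0⟩ := eventually_atTop.1 (hlogt.and ((eventually_ge_atTop (2 : ℝ)).and
    ((eventually_ge_atTop T2).and
    ((eventually_ge_atTop (2 * T3)).and ((eventually_ge_atTop T4).and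
    ((eventually_ge_atTop T5).and ((eventually_ge_atTop T6).and
    ((eventually_ge_atTop T7).and (eventually_ge_atTop T3)))))))))
  refine ⟨T0, fun t ht => ?_⟩
  obtain ⟨c1, c2, c4, c5, c6, c7, c8, c9, c10⟩ := hT0 t ht
  have hM := hMpos t c6
  have hl := hlt t c7
  rw [abs_le] at hl
  have hle : 16 ≤ lt t * e := by
    have h1 : 16 / e ≤ lt t := by
      have h2 : 32 / e = 2 * (16 / e) := by ring
      rw [h2] at c1
      linarith [hl.1]
    rwa [div_le_iff₀ he0] at h1
  have hlt0 : 0 ≤ lt t := by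
    by_contra hc
    have := mul_neg_of_neg_of_pos (not_le.mp hc) he0
    linarith
  refine ⟨hM, hlt0, fun hH => ?_⟩
  have hlog2 : Real.log t ≤ t / 2 := by
    have h1 : Real.log t = Real.log 2 + Real.log (t / 2) := by
      rw [← Real.log_mul (by norm_num) (by positivity)]
      congr 1
      ring
    have h2 := Real.log_le_sub_one_of_pos (by positivity : 0 < t / 2)
    have h3 := Real.log_two_lt_d9
    linarith
  -- the lines `Im = ± h`
  have hline : ∀ v : ℝ, |v| ≤ Real.log t →
      ‖X (((t + v : ℝ) : ℂ) - I * h)‖ ≤ M t * Real.exp (lt t * (h + e / 4) + |v|) := by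
    intro v hv
    have h1 := hH (t + v) (by rwa [add_sub_cancel_left])
    rw [add_sub_cancel_left] at h1
    refine h1.trans ?_
    apply mul_le_mul_of_nonneg_left _ hM.le
    apply Real.exp_le_exp.mpr
    have h2 : lt t * (h + e / 8) ≤ lt t * (h + e / 4) :=
      mul_le_mul_of_nonneg_left (by linarith) hlt0
    linarith
  have hconj : ∀ x : ℝ, ‖X ((x : ℂ) + I * h)‖ = ‖X ((x : ℂ) - I * h)‖ := by
    intro x
    have h1 := E.conj ((x : ℂ) - I * h)
    have h2 : (starRingEnd ℂ) ((x : ℂ) - I * h) = (x : ℂ) + I * h := by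
      rw [map_sub, map_mul, conj_ofReal, conj_I, conj_ofReal]
      ring
    rw [h2] at h1
    rw [h1, Complex.norm_conj]
  have hbd1 : ∀ v : ℂ, |v.re| ≤ Real.log t → v.im = -h →
      ‖X (t + v)‖ ≤ M t * Real.exp (lt t * (h + e / 4) + |v.re|) := by
    intro v hv hi
    have h1 : (t : ℂ) + v = ((t + v.re : ℝ) : ℂ) - I * h := by
      apply Complex.ext
      · simp only [add_re, ofReal_re, sub_re, mul_re, I_re, I_im, ofReal_im]
        ring
      · simp only [add_im, ofReal_im, sub_im, mul_im, I_re, I_im, ofReal_re]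
        rw [hi]
        ring
    rw [h1]
    exact hline v.re hv
  have hbd2 : ∀ v : ℂ, |v.re| ≤ Real.log t → v.im = h →
      ‖X (t + v)‖ ≤ M t * Real.exp (lt t * (h + e / 4) + |v.re|) := by
    intro v hv hi
    have h1 : (t : ℂ) + v = ((t + v.re : ℝ) : ℂ) + I * h := by
      apply Complex.ext
      · simp only [add_re, ofReal_re, mul_re, I_re, I_im, ofReal_im]
        ring
      · simp only [add_im, ofReal_im, mul_im, I_re, I_im, ofReal_re]
        rw [hi]
        ring
    rw [h1, hconj]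
    exact hline v.re hv
  -- (i)
  have hi1 := hmax1 t c8 (by
    intro v hv hor
    have e1 : h + e / 4 - 0 * v.im = h + e / 4 := by ring
    rw [e1]
    rcases hor with hor | hor
    · exact hbd2 v hv (by rw [hor, neg_neg])
    · exact hbd1 v hv hor)
  -- (ii)
  have hi2 := hmax2 t c9 (by
    intro v hv hor
    rcases hor with hor | hor
    · have e1 : e / 4 - 1 * v.im = h + e / 4 := by rw [hor]; ring
      rw [e1]
      exact hbd1 v hv hor
    · have e1 : e / 4 - 1 * v.im = (1 / 2 + e / 4) + e / 8 := by rw [hor]; ring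
      rw [e1]
      have hv' := abs_le.mp hv
      have hLB := hloc (t + v.re) (by linarith [hv'.1])
      have hu := hLB.up (-(I * (1 / 2 + e / 8 : ℝ))) (by
        rw [norm_neg, norm_mul, norm_I, one_mul, Complex.norm_real, Real.norm_eq_abs,
          abs_of_pos (by positivity)]
        linarith)
      have him : (-(I * ((1 / 2 + e / 8 : ℝ) : ℂ))).im = -(1 / 2 + e / 8) := by
        rw [neg_im, mul_im, I_re, I_im, ofReal_re, ofReal_im]
        ring
      have hX : (((t + v.re : ℝ) : ℂ)) + -(I * ((1 / 2 + e / 8 : ℝ) : ℂ)) = (t : ℂ) + v := by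
        apply Complex.ext
        · simp only [add_re, ofReal_re, neg_re, mul_re, I_re, I_im, ofReal_im]
          ring
        · simp only [add_im, ofReal_im, neg_im, mul_im, I_re, I_im, ofReal_re]
          rw [hor]
          ring
      rw [him, abs_neg, abs_of_pos (by positivity : (0 : ℝ) < 1 / 2 + e / 8),
        max_eq_left (by linarith : (1 : ℝ) / 2 ≤ 1 / 2 + e / 8)] at hu
      change ‖X (((t + v.re : ℝ) : ℂ) + -(I * ((1 / 2 + e / 8 : ℝ) : ℂ)))‖ ≤ _ at hu
      rw [hX] at hu
      refine hu.trans ?_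
      obtain ⟨m1, m2⟩ := hmtd t c4 v.re (by rw [one_mul]; exact hv)
      have h2 := absorb (a := 1 / 2 + e / 4) (g := e / 8) hM m1 m2 (by positivity) (by linarith)
      have h3 : lt (t + v.re) * (1 / 2 + e / 8) + e / 8 * lt (t + v.re) =
          lt (t + v.re) * (1 / 2 + e / 4) := by ring
      rw [h3]
      exact h2)
  intro v hv1 hv2 hv3
  rcases le_total (-h) v.im with hc | hc
  · refine (hi1 v (by linarith) hc (by linarith)).trans ?_
    apply mul_le_mul_of_nonneg_left _ hM.le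
    apply Real.exp_le_exp.mpr
    apply mul_le_mul_of_nonneg_left _ hlt0
    have := le_max_right (-v.im) h
    linarith
  · have hmx := le_max_left (-v.im) h
    rcases le_total (-(1 / 2 + e / 8)) v.im with hd | hd
    · refine (hi2 v (by linarith) hd (by linarith)).trans ?_
      apply mul_le_mul_of_nonneg_left _ hM.le
      apply Real.exp_le_exp.mpr
      apply mul_le_mul_of_nonneg_left _ hlt0
      linarith
    · have hu := (hloc t c10).up v (norm_le_four hv1 (by
        rw [abs_le]; constructor <;> linarith))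
      change ‖X (t + v)‖ ≤ _ at hu
      refine hu.trans ?_
      apply mul_le_mul_of_nonneg_left _ hM.le
      apply Real.exp_le_exp.mpr
      rw [abs_of_neg (by linarith : v.im < 0), max_eq_left (by linarith : (1 : ℝ) / 2 ≤ -v.im)]
      have h2 : lt t * (-v.im) ≤ lt t * max (-v.im) h := mul_le_mul_of_nonneg_left hmx hlt0
      have h3 : 0 ≤ e * lt t := mul_nonneg he0.le hlt0
      have h4 : lt t * (max (-v.im) h + e / 2) = lt t * max (-v.im) h + e * lt t / 2 := by ring
      rw [h4]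
      linarith

theorem im_addI (z : ℂ) (h : ℝ) : (z + I * h).im = z.im + h := by simp

theorem im_subI (z : ℂ) (h : ℝ) : (z - I * h).im = z.im - h := by simp

theorem re_addI (z : ℂ) (h : ℝ) : (z + I * h).re = z.re := by simp

theorem re_subI (z : ℂ) (h : ℝ) : (z - I * h).re = z.re := by simp

theorem norm_fac (l t : ℝ) (z : ℂ) :
    ‖cexp (-(I * l) * z + I * l * t)‖ = Real.exp (l * z.im) := by
  rw [norm_exp]
  congr 1
  simp

/-- the two bounds in the balls -/
theorem balls (X : ℂ → ℂ) (M lt : ℝ → ℝ) (E : Env X M lt) (h e : ℝ) (hh0 : 0 < h)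
    (hh1 : h < 1 / 2) (he0 : 0 < e) (he1 : e ≤ 1) (heh : e ≤ 4 * h) :
    ∃ T0 : ℝ, ∀ t : ℝ, T0 ≤ t → 0 < M t ∧ 0 ≤ lt t ∧
      ((∀ x : ℝ, |x - t| ≤ Real.log t →
        ‖X (x - I * h)‖ ≤ M t * Real.exp (lt t * (h + e / 8) + |x - t|)) →
      ∀ x : ℝ, |x - t| ≤ 2 →
        (∀ z ∈ ball ((x : ℂ) - I) 1, ‖Av X h z * cexp (-(I * lt t) * z + I * lt t * t)‖ ≤
          2 * M t * Real.exp (lt t * (h + e / 2))) ∧
        1 / 2 * M t * Real.exp (lt t * h - e * lt t / 8) ≤
          ‖Av X h ((x : ℂ) - I) * cexp (-(I * lt t) * ((x : ℂ) - I) + I * lt t * t)‖) := by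
  obtain ⟨T1, hup⟩ := upper X M lt E h e hh0 hh1 he0 he1
  obtain ⟨T2, hloc⟩ := E.loc (1 / 2) (e / 8) (by norm_num) (by positivity)
  obtain ⟨C, T3, hlt⟩ := E.ltlog
  have hlogt : ∀ᶠ t : ℝ in atTop, C + 2 / h ≤ Real.log t :=
    Real.tendsto_log_atTop.eventually_ge_atTop _
  obtain ⟨T0, hT0⟩ := eventually_atTop.1 (hlogt.and ((eventually_ge_atTop T1).and
    ((eventually_ge_atTop T2).and (eventually_ge_atTop T3))))
  refine ⟨T0, fun t ht => ?_⟩
  obtain ⟨c1, c2, c3, c4⟩ := hT0 t ht
  obtain ⟨hM, hl0, hup⟩ := hup t c2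
  have hl := hlt t c4
  rw [abs_le] at hl
  have hlh : 1 ≤ lt t * h := by
    have h1 : 1 / h ≤ lt t := by
      have h2 : 2 / h = 2 * (1 / h) := by ring
      rw [h2] at c1
      linarith [hl.1]
    rwa [div_le_iff₀ hh0] at h1
  refine ⟨hM, hl0, fun hH => ?_⟩
  have hup := hup hH
  have hLB := hloc t c3
  obtain ⟨l, hle⟩ : ∃ l, l = lt t := ⟨_, rfl⟩
  rw [← hle] at hl0 hlh hup hLB ⊢
  intro x hx
  have hx' := abs_le.1 hx
  constructor
  · intro z hz
    have h2 : ‖z - ((x : ℂ) - I)‖ < 1 := mem_ball_iff_norm.mp hz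
    have h3 : |(z - ((x : ℂ) - I)).re| < 1 := (abs_re_le_norm _).trans_lt h2
    have h4 : |(z - ((x : ℂ) - I)).im| < 1 := (abs_im_le_norm _).trans_lt h2
    rw [sub_re, sub_re, I_re, sub_zero, ofReal_re] at h3
    rw [sub_im, sub_im, I_im, ofReal_im, zero_sub] at h4
    have h5 := abs_lt.mp h3
    have h6 := abs_lt.mp h4
    have hre : (z - t).re = z.re - t := by rw [sub_re, ofReal_re]
    have him : (z - t).im = z.im := by rw [sub_im, ofReal_im, sub_zero]
    have k1 := hup (z - t + I * h) (by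
      rw [re_addI, hre, abs_le]
      constructor <;> linarith) (by rw [im_addI, him]; linarith) (by
      rw [im_addI, him]; linarith)
    have k2 := hup (z - t - I * h) (by
      rw [re_subI, hre, abs_le]
      constructor <;> linarith) (by rw [im_subI, him]; linarith) (by
      rw [im_subI, him]; linarith)
    have e1 : (t : ℂ) + (z - t + I * h) = z + I * h := by ring
    have e2 : (t : ℂ) + (z - t - I * h) = z - I * h := by ring
    rw [e1, im_addI, him] at k1
    rw [e2, im_subI, him] at k2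
    have b1 : l * (max (-(z.im + h)) h + e / 2) ≤ l * (-z.im + h + e / 2) := by
      apply mul_le_mul_of_nonneg_left _ hl0
      have : max (-(z.im + h)) h ≤ -z.im + h := max_le (by linarith) (by linarith)
      linarith
    have b2 : l * (max (-(z.im - h)) h + e / 2) ≤ l * (-z.im + h + e / 2) := by
      apply mul_le_mul_of_nonneg_left _ hl0
      have : max (-(z.im - h)) h ≤ -z.im + h := max_le (by linarith) (by linarith)
      linarith
    have k1' := k1.trans (mul_le_mul_of_nonneg_left (Real.exp_le_exp.mpr b1) hM.le)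
    have k2' := k2.trans (mul_le_mul_of_nonneg_left (Real.exp_le_exp.mpr b2) hM.le)
    have k3 : ‖Av X h z‖ ≤ 2 * M t * Real.exp (l * (-z.im + h + e / 2)) := by
      unfold Av
      refine (norm_add_le _ _).trans ?_
      linarith
    rw [norm_mul, norm_fac]
    calc ‖Av X h z‖ * Real.exp (l * z.im)
        ≤ 2 * M t * Real.exp (l * (-z.im + h + e / 2)) * Real.exp (l * z.im) :=
          mul_le_mul_of_nonneg_right k3 (Real.exp_pos _).le
      _ = 2 * M t * Real.exp (l * (h + e / 2)) := by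
          rw [mul_assoc, ← Real.exp_add]
          congr 2
          ring
  · have hre : ((x : ℂ) - I - t).re = x - t := by
      rw [sub_re, sub_re, ofReal_re, ofReal_re, I_re, sub_zero]
    have him : ((x : ℂ) - I - t).im = -1 := by
      rw [sub_im, sub_im, ofReal_im, ofReal_im, I_im]
      ring
    have k1 := hLB.up ((x : ℂ) - I - t + I * h) (norm_le_four (by
      rw [re_addI, hre]; linarith) (by
      rw [im_addI, him, abs_le]; constructor <;> linarith))
    have k2 := hLB.low ((x : ℂ) - I - t - I * h) (norm_le_four (by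
      rw [re_subI, hre]; linarith) (by
      rw [im_subI, him, abs_le]; constructor <;> linarith)) (by
      rw [im_subI, him]; linarith)
    have e1 : (t : ℂ) + ((x : ℂ) - I - t + I * h) = (x : ℂ) - I + I * h := by ring
    have e2 : (t : ℂ) + ((x : ℂ) - I - t - I * h) = (x : ℂ) - I - I * h := by ring
    change ‖X (t + ((x : ℂ) - I - t + I * h))‖ ≤ _ at k1
    change _ ≤ ‖X (t + ((x : ℂ) - I - t - I * h))‖ at k2
    rw [e1, im_addI, him, abs_of_neg (by linarith : -1 + h < 0),
      max_eq_left (by linarith : (1 : ℝ) / 2 ≤ -(-1 + h))] at k1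
    rw [e2, im_subI, him, abs_of_neg (by linarith : -1 - h < 0)] at k2
    have hh : e * l ≤ 4 * h * l := mul_le_mul_of_nonneg_right heh hl0
    have k3 : 2 * Real.exp (l * -(-1 + h) + e / 8 * l) ≤ Real.exp (l * -(-1 - h) - e / 8 * l) := by
      have h2 : (2 : ℝ) ≤ Real.exp 1 := by
        have := Real.add_one_le_exp (1 : ℝ)
        linarith
      calc 2 * Real.exp (l * -(-1 + h) + e / 8 * l)
          ≤ Real.exp 1 * Real.exp (l * -(-1 + h) + e / 8 * l) :=
            mul_le_mul_of_nonneg_right h2 (Real.exp_pos _).le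
        _ = Real.exp (1 + (l * -(-1 + h) + e / 8 * l)) := by rw [← Real.exp_add]
        _ ≤ _ := by
            apply Real.exp_le_exp.mpr
            nlinarith
    have k4 : 1 / 2 * (M t * Real.exp (l * -(-1 - h) - e / 8 * l)) ≤ ‖Av X h ((x : ℂ) - I)‖ := by
      unfold Av
      have h5 : ‖X ((x : ℂ) - I - I * h)‖ ≤
          ‖X ((x : ℂ) - I + I * h) + X ((x : ℂ) - I - I * h)‖ + ‖X ((x : ℂ) - I + I * h)‖ := by
        have := norm_sub_le (X ((x : ℂ) - I + I * h) + X ((x : ℂ) - I - I * h))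
          (X ((x : ℂ) - I + I * h))
        rwa [add_sub_cancel_left] at this
      have h6 : M t * (2 * Real.exp (l * -(-1 + h) + e / 8 * l)) ≤
          M t * Real.exp (l * -(-1 - h) - e / 8 * l) := mul_le_mul_of_nonneg_left k3 hM.le
      linarith
    rw [norm_mul, norm_fac]
    have him2 : ((x : ℂ) - I).im = -1 := by
      rw [sub_im, ofReal_im, I_im]
      ring
    rw [him2]
    calc 1 / 2 * M t * Real.exp (l * h - e * l / 8)
        = 1 / 2 * (M t * Real.exp (l * -(-1 - h) - e / 8 * l)) * Real.exp (l * -1) := by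
          rw [mul_assoc (1 / 2 : ℝ), mul_assoc (1 / 2 : ℝ), mul_assoc (M t), ← Real.exp_add]
          congr 3
          ring
      _ ≤ _ := mul_le_mul_of_nonneg_right k4 (Real.exp_pos _).le

/-- **JENF.** -/
theorem S_JENF_proof (hB : S_BLA) (hN : S_NMT) : S_JENF := by
  intro X M lt E h a e h0 h1 a0 a1 e0
  obtain ⟨n1, n2, n3, n4⟩ := hN
  obtain ⟨r, hr⟩ : ∃ r : ℝ, r = 1 - a / 2 := ⟨_, rfl⟩
  have r0 : 0 < r := by linarith
  have r1 : r < 1 := by linarith
  obtain ⟨L, hL⟩ : ∃ L : ℝ, L = Real.log (1 / r) := ⟨_, rfl⟩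
  have L0 : 0 < L := by
    rw [hL]
    apply Real.log_pos
    rw [lt_div_iff₀ r0]
    linarith
  obtain ⟨n, hn⟩ : ∃ n : ℕ, n = ⌊2 / a⌋₊ + 1 := ⟨_, rfl⟩
  have nn0 : (0 : ℝ) < n := by
    rw [hn]
    positivity
  obtain ⟨e1, he1⟩ : ∃ e1 : ℝ, e1 = min (min 1 (4 * h)) (e * L / n) := ⟨_, rfl⟩
  have e10 : 0 < e1 := by
    rw [he1]
    exact lt_min (lt_min one_pos (by linarith)) (by positivity)
  have e11 : e1 ≤ 1 := by
    rw [he1]
    exact (min_le_left _ _).trans (min_le_left _ _)
  have e1h : e1 ≤ 4 * h := by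
    rw [he1]
    exact (min_le_left _ _).trans (min_le_right _ _)
  have e1n : n * e1 ≤ e * L := by
    have h2 : e1 ≤ e * L / n := by
      rw [he1]
      exact min_le_right _ _
    rw [le_div_iff₀ nn0] at h2
    linarith
  obtain ⟨T1, hbl⟩ := balls X M lt E h e1 h0 h1 e10 e11 e1h
  obtain ⟨C, T3, hlt⟩ := E.ltlog
  have hlogt : ∀ᶠ t : ℝ in atTop, C + 2 * (n * Real.log 4 / (L * e)) ≤ Real.log t :=
    Real.tendsto_log_atTop.eventually_ge_atTop _
  obtain ⟨T0, hT0⟩ := eventually_atTop.1 (hlogt.and ((eventually_ge_atTop T1).and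
    (eventually_ge_atTop T3)))
  refine ⟨e1 / 8, T0, by positivity, fun t ht hH => ?_⟩
  obtain ⟨c1, c2, c3⟩ := hT0 t ht
  obtain ⟨hM, hl0, hb⟩ := hbl t c2
  have hb := hb hH
  have hl := hlt t c3
  rw [abs_le] at hl
  have hgd : Differentiable ℂ (Av X h) := by
    have := E.diff
    unfold Av
    fun_prop
  obtain ⟨K, hK⟩ : ∃ K : ℝ, K = (Real.log 4 + e1 * lt t) / L := ⟨_, rfl⟩
  have hball : ∀ x : ℝ, |x - t| ≤ 2 → Nm (Av X h) (closedBall ((x : ℂ) - I) r) ≤ K ∧
      Av X h ((x : ℂ) - I) ≠ 0 := by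
    intro x hx
    obtain ⟨q1, q2⟩ := hb x hx
    have q3 := n2 (Av X h) (closedBall ((x : ℂ) - I) r) (-(I * lt t)) (I * lt t * t) hgd
    rw [← q3]
    have hne : Av X h ((x : ℂ) - I) * cexp (-(I * lt t) * ((x : ℂ) - I) + I * lt t * t) ≠ 0 := by
      intro hc
      rw [hc, norm_zero] at q2
      have : 0 < 1 / 2 * M t * Real.exp (lt t * h - e1 * lt t / 8) := by positivity
      linarith
    have hg1 : Differentiable ℂ (fun z => Av X h z * cexp (-(I * lt t) * z + I * lt t * t)) := by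
      fun_prop
    obtain ⟨b, -, -, -, -, -, hb6⟩ := hB (fun z => Av X h z * cexp (-(I * lt t) * z + I * lt t * t))
      ((x : ℂ) - I) 1 one_pos hg1 hne
    have q4 := hb6 r (2 * M t * Real.exp (lt t * (h + e1 / 2))) r0 r1 q1
    refine ⟨?_, left_ne_zero_of_mul hne⟩
    rw [hK, le_div_iff₀ L0, hL]
    refine q4.trans ?_
    have q5 : Real.log 4 + e1 * lt t = Real.log (4 * Real.exp (e1 * lt t)) := by
      rw [Real.log_mul (by norm_num) (Real.exp_pos _).ne', Real.log_exp]
    have q6 := norm_pos_iff.mpr hne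
    rw [q5]
    apply Real.log_le_log (div_pos (by positivity) q6)
    rw [div_le_iff₀ q6]
    calc 2 * M t * Real.exp (lt t * (h + e1 / 2))
        ≤ 2 * M t * Real.exp (e1 * lt t + (lt t * h - e1 * lt t / 8)) := by
          apply mul_le_mul_of_nonneg_left _ (by positivity)
          apply Real.exp_le_exp.mpr
          have : 0 ≤ e1 * lt t := mul_nonneg e10.le hl0
          have e5 : lt t * (h + e1 / 2) = lt t * h + e1 * lt t / 2 := by ring
          rw [e5]
          linarith
      _ = 4 * Real.exp (e1 * lt t) * (1 / 2 * M t * Real.exp (lt t * h - e1 * lt t / 8)) := by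
          rw [Real.exp_add]
          ring
      _ ≤ _ := mul_le_mul_of_nonneg_left q2 (by positivity)
  have hcov := n4 (Av X h) {w : ℂ | |w.re - t| ≤ 1 ∧ -(1 / 2) < w.im ∧ w.im ≤ -a} n
    (fun j => closedBall (((t - 1 + (j + 1 / 2) * a : ℝ) : ℂ) - I) r) K hgd
    ⟨(t : ℂ) - I, (hball t (by rw [sub_self, abs_zero]; norm_num)).2⟩
    (fun j _ => isBounded_closedBall) (by
      rintro z ⟨z1, z2, z3⟩
      have z1' := abs_le.1 z1
      obtain ⟨u, hu⟩ : ∃ u : ℝ, u = (z.re - t + 1) / a := ⟨_, rfl⟩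
      have u0 : 0 ≤ u := by
        rw [hu]
        apply div_nonneg _ a0.le
        linarith
      have u2 : u ≤ 2 / a := by
        rw [hu]
        apply div_le_div_of_nonneg_right _ a0.le
        linarith
      have hzu : z.re = t - 1 + u * a := by
        rw [hu, div_mul_cancel₀ _ a0.ne']
        ring
      refine ⟨⌊u⌋₊, ?_, ?_⟩
      · rw [hn]
        exact Nat.lt_succ_of_le (Nat.floor_le_floor u2)
      · have f1 := Nat.floor_le u0
        have f2 := Nat.lt_floor_add_one u
        obtain ⟨j, hj⟩ : ∃ j : ℝ, j = (⌊u⌋₊ : ℝ) := ⟨_, rfl⟩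
        change z ∈ closedBall (((t - 1 + ((⌊u⌋₊ : ℝ) + 1 / 2) * a : ℝ) : ℂ) - I) r
        rw [← hj] at f1 f2 ⊢
        rw [mem_closedBall_iff_norm]
        have s1 : ‖z - (((t - 1 + (j + 1 / 2) * a : ℝ) : ℂ) - I)‖ ^ 2 =
            ((u - j - 1 / 2) * a) ^ 2 + (z.im + 1) ^ 2 := by
          rw [Complex.sq_norm, Complex.normSq_apply, sub_re, sub_im, sub_re, sub_im, I_re, I_im,
            ofReal_re, ofReal_im, hzu]
          ring
        have s2 : ((u - j - 1 / 2) * a) ^ 2 ≤ (a / 2) ^ 2 := by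
          apply sq_le_sq'
          · nlinarith
          · nlinarith
        have s3 : (z.im + 1) ^ 2 ≤ (1 - a) ^ 2 := by
          apply sq_le_sq'
          · linarith
          · linarith
        have s4 : ‖z - (((t - 1 + (j + 1 / 2) * a : ℝ) : ℂ) - I)‖ ^ 2 ≤ r ^ 2 := by
          rw [s1, hr]
          nlinarith
        exact abs_le_of_sq_le_sq' s4 r0.le |>.2) (by
      intro j hj
      apply (hball _ _).1
      have j1 : (j : ℝ) ≤ 2 / a := by
        have h2 : j ≤ ⌊2 / a⌋₊ := by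
          rw [hn] at hj
          exact Nat.lt_succ_iff.mp hj
        exact (Nat.le_floor_iff (by positivity)).1 h2
      have j2 : (j : ℝ) * a ≤ 2 := by
        rwa [le_div_iff₀ a0] at j1
      have j3 : 0 ≤ (j : ℝ) * a := by positivity
      rw [abs_le]
      constructor
      · nlinarith
      · nlinarith)
  refine hcov.trans ?_
  have hf : n * K = n * Real.log 4 / L + n * e1 * lt t / L := by
    rw [hK]
    ring
  have g1 : n * e1 * lt t / L ≤ e * lt t := by
    rw [div_le_iff₀ L0]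
    have := mul_le_mul_of_nonneg_right e1n hl0
    linarith
  have g2 : n * Real.log 4 / L = e * (n * Real.log 4 / (L * e)) := by
    field_simp
  rw [hf, g2]
  have g3 : e * (C + 2 * (n * Real.log 4 / (L * e))) ≤ e * Real.log t :=
    mul_le_mul_of_nonneg_left c1 e0.le
  have g4 : e * (2 * lt t) ≤ e * (Real.log t + C) :=
    mul_le_mul_of_nonneg_left (by linarith [hl.2]) e0.le
  linarith

end Pool.Agent.H189.AV
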